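import Mathlib

/-!
# `m_n`-distributional chaos
-/

namespace Pool.Agent.V1166.DC

open Filter Topology

/-- The class `R`: sequences `(m_n)`, `n ≥ 1`, in `[1, ∞)`, increasing, with
`liminf m_n / n > 0`. -/
def ClassR (m : ℕ → ℝ) : Prop :=
  (∀ n, 1 ≤ n → 1 ≤ m n) ∧ (∀ n k, 1 ≤ n → n < k → m n < m k) ∧
    0 < liminf (fun n : ℕ => ENNReal.ofReal (m n / n)) atTop

/-- The number of elements of `A ∩ [1, r]`. -/
noncomputable def cnt (A : Set ℕ) (r : ℝ) : ℕ := (A ∩ {j | 1 ≤ j ∧ (j : ℝ) ≤ r}).ncard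

/-- The lower `m_n`-density of `A`. -/
noncomputable def ldens (m : ℕ → ℝ) (A : Set ℕ) : ENNReal :=
  liminf (fun n : ℕ => (cnt A (m n) : ENNReal) / n) atTop

/-- `m_n`-distributional chaos of a map `T` of a metric space. -/
def MDC {X : Type*} [MetricSpace X] (m : ℕ → ℝ) (T : X → X) : Prop :=
  ∃ (S : Set X) (σ : ℝ), ¬ S.Countable ∧ 0 < σ ∧ ∀ ε : ℝ, 0 < ε → ∀ x ∈ S, ∀ y ∈ S, x ≠ y →
    ldens m {j | dist (T^[j] x) (T^[j] y) < σ} = 0 ∧
    ldens m {j | ε ≤ dist (T^[j] x) (T^[j] y)} = 0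

lemma finite_cut (r : ℝ) : {j : ℕ | 1 ≤ j ∧ (j : ℝ) ≤ r}.Finite := by
  refine (Set.finite_Iic ⌊r⌋₊).subset (fun j hj => ?_)
  exact Nat.le_floor hj.2

lemma ldens_eq_zero {m : ℕ → ℝ} {A : Set ℕ}
    (h : ∀ ε : ℝ, 0 < ε → ∀ N : ℕ, ∃ n, N ≤ n ∧ 1 ≤ n ∧ (cnt A (m n) : ℝ) ≤ ε * n) :
    ldens m A = 0 := by
  refine le_antisymm ?_ bot_le
  refine ENNReal.le_of_forall_pos_le_add (fun ε hε _ => ?_)
  rw [zero_add]
  refine liminf_le_of_frequently_le' ?_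
  rw [frequently_atTop]
  intro N
  obtain ⟨n, hn, hn1, hc⟩ := h ε hε N
  refine ⟨n, hn, ?_⟩
  refine ENNReal.div_le_of_le_mul ?_
  have h1 : ((cnt A (m n) : ℕ) : ENNReal) = ENNReal.ofReal (cnt A (m n)) := by
    rw [ENNReal.ofReal_natCast]
  have h2 : (ε : ENNReal) * n = ENNReal.ofReal (ε * n) := by
    rw [ENNReal.ofReal_mul ε.coe_nonneg, ENNReal.ofReal_natCast, ENNReal.ofReal_coe_nnreal]
  rw [h1, h2]
  exact ENNReal.ofReal_le_ofReal hc

lemma ldens_ne_zero {m : ℕ → ℝ} {A : Set ℕ} {c : ℕ} (hc : 0 < c) {N : ℕ}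
    (h : ∀ n, N ≤ n → n ≤ c * cnt A (m n)) : ldens m A ≠ 0 := by
  have h1 : (1 / c : ENNReal) ≤ ldens m A := by
    refine le_liminf_of_le (by isBoundedDefault) ?_
    filter_upwards [eventually_ge_atTop (max N 1)] with n hn
    have hn1 : 1 ≤ n := (le_max_right _ _).trans hn
    have hn' := h n ((le_max_left _ _).trans hn)
    rw [ENNReal.le_div_iff_mul_le (Or.inl (by exact_mod_cast (by lia : n ≠ 0)))
      (Or.inl (ENNReal.natCast_ne_top n)), mul_comm, mul_one_div]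
    refine ENNReal.div_le_of_le_mul ?_
    rw [mul_comm]
    exact_mod_cast hn'
  intro h0
  rw [h0] at h1
  have : (1 / c : ENNReal) ≠ 0 := by simp
  exact this (le_antisymm h1 bot_le)

end Pool.Agent.V1166.DC
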