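import Pool.Agent.V1166.DC.Oper

/-!
# The main results on the weighted shift
-/

namespace Pool.Agent.V1166.DC

open Filter Topology ZeroAtInfty

variable {𝕂 : Type} [RCLike 𝕂]

lemma cnt_le_of {A : Set ℕ} {r : ℝ} {K : ℕ} (h : ∀ j ∈ A, 1 ≤ j → (j : ℝ) ≤ r → j < K) :
    cnt A r ≤ K := by
  unfold cnt
  calc (A ∩ {j | 1 ≤ j ∧ (j : ℝ) ≤ r}).ncard ≤ (↑(Finset.range K) : Set ℕ).ncard := by
        refine Set.ncard_le_ncard (fun j hj => ?_) (Finset.finite_toSet _)
        simpa using h j hj.1 hj.2.1 hj.2.2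
    _ = K := by rw [Set.ncard_coe_finset, Finset.card_range]

lemma le_cnt_of {A : Set ℕ} {r : ℝ} {s t : ℕ} (hs : 1 ≤ s) (ht : (t : ℝ) ≤ r)
    (h : ∀ j, s ≤ j → j ≤ t → j ∈ A) : t - s ≤ cnt A r := by
  unfold cnt
  calc t - s ≤ (↑(Finset.Icc s t) : Set ℕ).ncard := by
        rw [Set.ncard_coe_finset, Nat.card_Icc]
        lia
    _ ≤ (A ∩ {j | 1 ≤ j ∧ (j : ℝ) ≤ r}).ncard := by
        refine Set.ncard_le_ncard (fun j hj => ?_)
          ((finite_cut r).subset Set.inter_subset_right)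
        rw [Finset.coe_Icc, Set.mem_Icc] at hj
        refine ⟨h j hj.1 hj.2, by lia, le_trans ?_ ht⟩
        exact_mod_cast hj.2

variable (𝕂) in
/-- Finitely supported sequences. -/
def X0 : Submodule 𝕂 C₀(ℕ, 𝕂) where
  carrier := {x | ∃ n, ∀ k, n ≤ k → x k = 0}
  zero_mem' := ⟨0, fun k _ => rfl⟩
  add_mem' := by
    rintro x y ⟨n, hn⟩ ⟨m, hm⟩
    refine ⟨max n m, fun k hk => ?_⟩
    rw [ZeroAtInftyContinuousMap.add_apply, hn k (by lia), hm k (by lia), add_zero]
  smul_mem' := by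
    rintro c x ⟨n, hn⟩
    refine ⟨n, fun k hk => ?_⟩
    rw [ZeroAtInftyContinuousMap.smul_apply, hn k hk, smul_zero]

lemma X0_dense : Dense (X0 𝕂 : Set C₀(ℕ, 𝕂)) := by
  intro x
  rw [Metric.mem_closure_iff]
  intro ε hε
  have h1 := (tendsto_c0 x)
  rw [tendsto_zero_iff_norm_tendsto_zero] at h1
  obtain ⟨m, hm⟩ := eventually_atTop.1 (h1.eventually (gt_mem_nhds (half_pos hε)))
  refine ⟨mkC (fun k => if k < m then x k else 0) ?_, ⟨m, fun k hk => ?_⟩, ?_⟩
  · refine tendsto_const_nhds.congr' ?_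
    filter_upwards [eventually_ge_atTop m] with k hk
    rw [if_neg (by lia)]
  · rw [mkC_apply, if_neg (by lia)]
  · rw [dist_eq_norm]
    refine lt_of_le_of_lt (norm_le_of _ (half_pos hε).le (fun k => ?_)) (half_lt_self hε)
    rw [ZeroAtInftyContinuousMap.sub_apply, mkC_apply]
    split_ifs with h
    · simp [(half_pos hε).le]
    · rw [sub_zero]
      exact (hm k (by lia)).le

lemma X0_tendsto (x : C₀(ℕ, 𝕂)) (hx : x ∈ X0 𝕂) :
    Tendsto (fun n => (T 𝕂)^[n] x) atTop (𝓝 0) := by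
  obtain ⟨n, hn⟩ := hx
  refine tendsto_const_nhds.congr' ?_
  filter_upwards [eventually_ge_atTop n] with m hm
  ext k
  rw [T_iter, hn _ (by lia), mul_zero]
  rfl

lemma exp_large (c : ℝ) : ∃ i₀ : ℕ, ∀ i, i₀ ≤ i → c ≤ Real.exp (i : ℝ) := by
  have h := (Real.tendsto_exp_atTop.comp tendsto_natCast_atTop_atTop).eventually_ge_atTop c
  exact eventually_atTop.1 h

/-- The operator is distributionally chaotic. -/
theorem chaotic : MDC (fun n => (n : ℝ)) (T 𝕂) := by
  refine ⟨Set.range (fun c : ℝ => ((c : ℝ) : 𝕂) • y 𝕂), 1, ?_, one_pos, ?_⟩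
  · have hy : (y 𝕂) ≠ 0 := by
      intro h0
      have := big_window (𝕂 := 𝕂) 0 (2 * (0 + 1) * R 0) (by lia) (by
        rw [b_succ]
        have : 4 ≤ R 0 := R_ge 0
        have h2 : R 0 * 4 ≤ R 0 * R 0 := Nat.mul_le_mul_left _ this
        have : b 0 = 0 := rfl
        nlinarith)
      have h1 : (T 𝕂)^[2 * (0 + 1) * R 0] (0 : C₀(ℕ, 𝕂)) = 0 := by
        ext k
        rw [T_iter, ZeroAtInftyContinuousMap.zero_apply, mul_zero]
        rfl
      rw [h0, h1, norm_zero] at this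
      exact absurd this (not_le.2 (Real.exp_pos _))
    have hinj : Function.Injective (fun c : ℝ => ((c : ℝ) : 𝕂) • y 𝕂) := by
      intro c c' hcc
      have := smul_left_injective 𝕂 hy hcc
      exact_mod_cast this
    intro hcount
    have h2 := hcount.preimage_of_injOn (f := fun c : ℝ => ((c : ℝ) : 𝕂) • y 𝕂) hinj.injOn
    rw [Set.preimage_range] at h2
    exact Cardinal.not_countable_real h2
  · rintro ε hε _ ⟨c, rfl⟩ _ ⟨c', rfl⟩ hne
    have hcc : 0 < |c - c'| := by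
      rw [abs_pos, sub_ne_zero]
      rintro rfl
      exact hne rfl
    have hdist : ∀ j, dist ((T 𝕂)^[j] (((c : ℝ) : 𝕂) • y 𝕂)) ((T 𝕂)^[j] (((c' : ℝ) : 𝕂) • y 𝕂)) =
        |c - c'| * ‖(T 𝕂)^[j] (y 𝕂)‖ := by
      intro j
      have h1 : ((c : ℝ) : 𝕂) • (T 𝕂)^[j] (y 𝕂) - ((c' : ℝ) : 𝕂) • (T 𝕂)^[j] (y 𝕂) =
          ((c - c' : ℝ) : 𝕂) • (T 𝕂)^[j] (y 𝕂) := by
        ext k
        rw [ZeroAtInftyContinuousMap.sub_apply, ZeroAtInftyContinuousMap.smul_apply,
          ZeroAtInftyContinuousMap.smul_apply, ZeroAtInftyContinuousMap.smul_apply,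
          RCLike.ofReal_sub, sub_smul]
      rw [dist_eq_norm, T_iter_smul, T_iter_smul, h1, norm_smul, RCLike.norm_ofReal]
    simp only [hdist]
    constructor
    · refine ldens_eq_zero (fun δ hδ N => ?_)
      obtain ⟨i₀, hi₀⟩ := exp_large (1 / |c - c'|)
      obtain ⟨i₁, hi₁⟩ := exists_nat_gt (2 / δ)
      set i := max (max i₀ i₁) N with hi
      have hi0 : i₀ ≤ i := by lia
      have hi1 : i₁ ≤ i := by lia
      have hiN : N ≤ i := by lia
      have hRi := R_ge i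
      have hRp := R_pos i
      have hb := b_succ i
      have hsq : i * R i ≤ R i ^ 2 := by nlinarith
      refine ⟨b (i + 1) - b i - 1, ?_, ?_, ?_⟩
      · have : R i ≤ R i ^ 2 := by nlinarith
        have h3 : (i + 1) * 1 ≤ 2 * (i + 1) * R i := by nlinarith
        lia
      · have h3 : 1 ≤ R i ^ 2 := Nat.one_le_pow _ _ hRp
        have h4 : 2 ≤ 2 * (i + 1) * R i := by nlinarith
        lia
      · have h1 : cnt {j | |c - c'| * ‖(T 𝕂)^[j] (y 𝕂)‖ < 1} ((b (i + 1) - b i - 1 : ℕ) : ℝ) ≤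
            2 * (i + 1) * R i := by
          refine cnt_le_of (fun j hj _ hjr => ?_)
          by_contra hlt
          have hjr' : j ≤ b (i + 1) - b i - 1 := by exact_mod_cast hjr
          have h3 : 1 ≤ R i ^ 2 := Nat.one_le_pow _ _ hRp
          have := big_window (𝕂 := 𝕂) i j (by lia) (by lia)
          have h5 := hi₀ i hi0
          have h6 : 1 ≤ |c - c'| * ‖(T 𝕂)^[j] (y 𝕂)‖ := by
            calc (1 : ℝ) = |c - c'| * (1 / |c - c'|) := by field_simp
              _ ≤ _ := mul_le_mul_of_nonneg_left (h5.trans this) hcc.le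
          exact absurd hj (not_lt.2 h6)
        have h2 : (cnt {j | |c - c'| * ‖(T 𝕂)^[j] (y 𝕂)‖ < 1}
            ((b (i + 1) - b i - 1 : ℕ) : ℝ) : ℝ) ≤ 2 * (i + 1) * R i := by exact_mod_cast h1
        refine h2.trans ?_
        have h3 : R i ^ 2 ≤ b (i + 1) - b i - 1 := by
          have : 1 ≤ 2 * (i + 1) * R i := by nlinarith
          lia
        have h3' : (R i : ℝ) ^ 2 ≤ ((b (i + 1) - b i - 1 : ℕ) : ℝ) := by exact_mod_cast h3
        have h4 : (2 : ℝ) ≤ δ * (i + 2) := by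
          have : 2 / δ < i + 2 := by
            have : (i₁ : ℝ) ≤ i := by exact_mod_cast hi1
            linarith
          rw [div_lt_iff₀ hδ] at this
          linarith
        have h5 : ((i : ℝ) + 2) ^ 2 ≤ R i := by exact_mod_cast hRi
        have h6 : (0 : ℝ) < R i := by exact_mod_cast hRp
        calc (2 : ℝ) * (i + 1) * R i ≤ (δ * (i + 2)) * (i + 2) * R i := by
              have : (0 : ℝ) ≤ i := by positivity
              have h7 : (2 : ℝ) * (i + 1) ≤ δ * (i + 2) * (i + 2) := by nlinarith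
              exact mul_le_mul_of_nonneg_right h7 h6.le
          _ = δ * (((i : ℝ) + 2) ^ 2 * R i) := by ring
          _ ≤ δ * ((R i : ℝ) * R i) :=
              mul_le_mul_of_nonneg_left (mul_le_mul_of_nonneg_right h5 h6.le) hδ.le
          _ = δ * (R i : ℝ) ^ 2 := by ring
          _ ≤ δ * ((b (i + 1) - b i - 1 : ℕ) : ℝ) := mul_le_mul_of_nonneg_left h3' hδ.le
    · refine ldens_eq_zero (fun δ hδ N => ?_)
      obtain ⟨i₀, hi₀⟩ := small_window (y 𝕂) (show 0 < ε / |c - c'| by positivity)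
      obtain ⟨i₁, hi₁⟩ := exists_nat_gt (1 / δ)
      set i := max (max i₀ i₁) N with hi
      have hi0 : i₀ ≤ i := by lia
      have hi1 : i₁ ≤ i := by lia
      have hiN : N ≤ i := by lia
      have hRi := R_ge i
      refine ⟨R i, ?_, ?_, ?_⟩
      · nlinarith
      · nlinarith
      · have h1 : cnt {j | ε ≤ |c - c'| * ‖(T 𝕂)^[j] (y 𝕂)‖} (R i : ℝ) ≤ b i := by
          refine cnt_le_of (fun j hj _ hjr => ?_)
          by_contra hlt
          have hjr' : j ≤ R i := by exact_mod_cast hjr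
          have h2 := hi₀ i hi0 j (by lia) hjr'
          rw [lt_div_iff₀ hcc, mul_comm] at h2
          exact absurd hj (not_le.2 h2)
        have h2 : (cnt {j | ε ≤ |c - c'| * ‖(T 𝕂)^[j] (y 𝕂)‖} (R i : ℝ) : ℝ) ≤ b i := by
          exact_mod_cast h1
        refine h2.trans ?_
        have h3 : (b i : ℝ) * ((i : ℝ) + 2) ^ 2 ≤ R i := by exact_mod_cast bR i
        have h4 : (1 : ℝ) ≤ δ * (i + 2) := by
          have : 1 / δ < i + 2 := by
            have : (i₁ : ℝ) ≤ i := by exact_mod_cast hi1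
            linarith
          rw [div_lt_iff₀ hδ] at this
          linarith
        have h5 : (1 : ℝ) ≤ δ * ((i : ℝ) + 2) ^ 2 := by
          have : (0 : ℝ) ≤ i := by positivity
          nlinarith
        calc (b i : ℝ) ≤ b i * (δ * ((i : ℝ) + 2) ^ 2) :=
              le_mul_of_one_le_right (by positivity) h5
          _ = δ * ((b i : ℝ) * ((i : ℝ) + 2) ^ 2) := by ring
          _ ≤ δ * R i := mul_le_mul_of_nonneg_left h3 hδ.le

/-- The operator is not `n²`-distributionally chaotic. -/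
theorem not_sq_chaotic : ¬ MDC (fun n => (n : ℝ) ^ 2) (T 𝕂) := by
  rintro ⟨S, σ, hS, hσ, h⟩
  have hnt : S.Nontrivial := by
    by_contra hc
    rw [Set.not_nontrivial_iff] at hc
    exact hS hc.countable
  obtain ⟨x, hx, z, hz, hne⟩ := hnt
  obtain ⟨h1, -⟩ := h 1 one_pos x hx z hz hne
  obtain ⟨i₀, hi₀⟩ := small_window (x - z) hσ
  have hmem : ∀ i, i₀ ≤ i → ∀ j, b i ≤ j → j ≤ R i →
      j ∈ {j | dist ((T 𝕂)^[j] x) ((T 𝕂)^[j] z) < σ} := by
    intro i hi j hj hj'
    have := hi₀ i hi j hj hj'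
    rw [T_iter_sub] at this
    rwa [Set.mem_ofPred_eq, dist_eq_norm]
  refine ldens_ne_zero (c := 6) (by norm_num) (N := 2 * b (i₀ + 1) + 2) ?_ h1
  intro n hn
  have hex : ∃ i, n ^ 2 < 2 * b (i + 1) := ⟨n ^ 2, by
    have := le_b (n ^ 2 + 1)
    lia⟩
  obtain ⟨i, hi1, hi2⟩ : ∃ i, n ^ 2 < 2 * b (i + 1) ∧ 2 * b i ≤ n ^ 2 := by
    refine ⟨Nat.find hex, Nat.find_spec hex, ?_⟩
    rcases hh : Nat.find hex with _ | i
    · exact Nat.zero_le _
    · have := Nat.find_min hex (m := i) (by lia)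
      lia
  have hnn : n ≤ n ^ 2 := by nlinarith
  have hii : i₀ + 1 ≤ i := by
    by_contra hlt
    have := b_mono (show i + 1 ≤ i₀ + 1 by lia)
    lia
  have hbi : 1 ≤ b i := by
    have := le_b i
    lia
  have hbR := bR i
  have hRi := R_ge i
  have hRp := R_pos i
  have h4 : 4 ≤ (i + 2) ^ 2 := by nlinarith
  have h4b : 4 * b i ≤ R i := by
    have := Nat.mul_le_mul_left (b i) h4
    lia
  by_cases hc : n ^ 2 ≤ R i
  · have hcount : n ^ 2 - b i ≤ cnt {j | dist ((T 𝕂)^[j] x) ((T 𝕂)^[j] z) < σ} ((n : ℝ) ^ 2) :=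
      le_cnt_of hbi (by push_cast; exact le_refl _)
        (fun j hj hj' => hmem i (by lia) j hj (hj'.trans hc))
    lia
  · have hcount : R i - b i ≤ cnt {j | dist ((T 𝕂)^[j] x) ((T 𝕂)^[j] z) < σ} ((n : ℝ) ^ 2) :=
      le_cnt_of hbi (by
        have : R i ≤ n ^ 2 := by lia
        exact_mod_cast this)
        (fun j hj hj' => hmem i (by lia) j hj hj')
    have hb1 := b_succ i
    have h5 : 2 * (i + 1) ≤ R i := by nlinarith
    have h6 : 2 * (i + 1) * R i ≤ R i * R i := Nat.mul_le_mul_right _ h5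
    have h7 : n ^ 2 < (3 * R i) ^ 2 := by nlinarith
    have h8 : n < 3 * R i := lt_of_pow_lt_pow_left₀ 2 (by positivity) h7
    lia

lemma sq_classR : ClassR (fun n => (n : ℝ) ^ 2) := by
  refine ⟨fun n hn => ?_, fun n k hn hk => ?_, ?_⟩
  · have : (1 : ℝ) ≤ n := by exact_mod_cast hn
    nlinarith
  · have h1 : (n : ℝ) < k := by exact_mod_cast hk
    have h2 : (1 : ℝ) ≤ n := by exact_mod_cast hn
    dsimp only
    nlinarith
  · refine lt_of_lt_of_le one_pos (le_liminf_of_le (by isBoundedDefault) ?_)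
    filter_upwards [eventually_ge_atTop 1] with n hn
    have h1 : (1 : ℝ) ≤ n := by exact_mod_cast hn
    rw [← ENNReal.ofReal_one]
    refine ENNReal.ofReal_le_ofReal ?_
    rw [le_div_iff₀ (by linarith)]
    nlinarith

end Pool.Agent.V1166.DC
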