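import Pool.Agent.V1166.DC.Seq

/-!
# The operator
-/

namespace Pool.Agent.V1166.DC

open Filter Topology ZeroAtInfty

variable {𝕂 : Type} [RCLike 𝕂]

lemma coc_nat : cocompact ℕ = atTop := by
  rw [cocompact_eq_cofinite, Nat.cofinite_eq_atTop]

/-- Constructor for elements of `c₀`. -/
def mkC (f : ℕ → 𝕂) (hf : Tendsto f atTop (𝓝 0)) : C₀(ℕ, 𝕂) :=
  ⟨⟨f, continuous_of_discreteTopology⟩, by
    change Tendsto f (cocompact ℕ) (𝓝 0)
    rw [coc_nat]
    exact hf⟩

lemma mkC_apply (f : ℕ → 𝕂) (hf : Tendsto f atTop (𝓝 0)) (k : ℕ) : mkC f hf k = f k := rfl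

lemma tendsto_c0 (x : C₀(ℕ, 𝕂)) : Tendsto x atTop (𝓝 0) := by
  have := x.zero_at_infty'
  change Tendsto x (cocompact ℕ) (𝓝 0) at this
  rwa [coc_nat] at this

lemma apply_le_norm (x : C₀(ℕ, 𝕂)) (k : ℕ) : ‖x k‖ ≤ ‖x‖ :=
  x.toBCF.norm_coe_le_norm k

lemma norm_le_of (x : C₀(ℕ, 𝕂)) {C : ℝ} (hC : 0 ≤ C) (h : ∀ k, ‖x k‖ ≤ C) : ‖x‖ ≤ C :=
  (x.toBCF.norm_le hC).2 h

/-- The weight. -/
noncomputable def w (k j : ℕ) : 𝕂 := ((Real.exp (p (k + j) - p k) : ℝ) : 𝕂)

lemma norm_w (k j : ℕ) : ‖(w k j : 𝕂)‖ = Real.exp (p (k + j) - p k) := by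
  unfold w
  rw [RCLike.norm_ofReal, abs_of_pos (Real.exp_pos _)]

variable (𝕂) in
/-- The weighted backward shift on `c₀`. -/
noncomputable def T : C₀(ℕ, 𝕂) →L[𝕂] C₀(ℕ, 𝕂) :=
  LinearMap.mkContinuous
    { toFun := fun x => mkC (fun k => w k 1 * x (k + 1)) (by
        have h1 : Tendsto (fun k => x (k + 1)) atTop (𝓝 0) :=
          (tendsto_c0 x).comp (tendsto_add_atTop_nat 1)
        rw [tendsto_zero_iff_norm_tendsto_zero] at h1 ⊢
        refine squeeze_zero (fun k => norm_nonneg _) (fun k => ?_) (by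
          simpa using h1.const_mul (Real.exp 1))
        rw [norm_mul, norm_w]
        exact mul_le_mul_of_nonneg_right (exp_one_step k) (norm_nonneg _))
      map_add' := fun x y => by
        ext k
        simp only [mkC_apply, ZeroAtInftyContinuousMap.add_apply, mul_add]
      map_smul' := fun c x => by
        ext k
        simp only [mkC_apply, ZeroAtInftyContinuousMap.smul_apply, RingHom.id_apply, smul_eq_mul]
        ring }
    (Real.exp 1) (fun x => by
      refine norm_le_of _ (by positivity) (fun k => ?_)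
      change ‖w k 1 * x (k + 1)‖ ≤ _
      rw [norm_mul, norm_w]
      exact mul_le_mul (exp_one_step k) (apply_le_norm x _) (norm_nonneg _) (by positivity))

lemma T_apply (x : C₀(ℕ, 𝕂)) (k : ℕ) : T 𝕂 x k = w k 1 * x (k + 1) := rfl

lemma T_iter (j : ℕ) : ∀ (x : C₀(ℕ, 𝕂)) (k : ℕ), ((T 𝕂)^[j] x) k = w k j * x (k + j) := by
  induction j with
  | zero => intro x k; simp [w]
  | succ j ih =>
    intro x k
    rw [Function.iterate_succ_apply', T_apply, ih, ← mul_assoc]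
    have h1 : k + 1 + j = k + (j + 1) := by ring
    have h2 : (w k 1 : 𝕂) * w (k + 1) j = w k (j + 1) := by
      unfold w
      rw [h1, ← RCLike.ofReal_mul, ← Real.exp_add]
      congr 2
      ring
    rw [h2, h1]

lemma T_iter_sub (j : ℕ) (x y : C₀(ℕ, 𝕂)) : (T 𝕂)^[j] (x - y) = (T 𝕂)^[j] x - (T 𝕂)^[j] y := by
  ext k
  rw [ZeroAtInftyContinuousMap.sub_apply, T_iter, T_iter, T_iter,
    ZeroAtInftyContinuousMap.sub_apply, mul_sub]

lemma T_iter_smul (j : ℕ) (c : 𝕂) (x : C₀(ℕ, 𝕂)) : (T 𝕂)^[j] (c • x) = c • (T 𝕂)^[j] x := by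
  ext k
  rw [ZeroAtInftyContinuousMap.smul_apply, T_iter, T_iter,
    ZeroAtInftyContinuousMap.smul_apply, smul_eq_mul, smul_eq_mul]
  ring

/-- In the small windows all orbits are small. -/
lemma small_window (x : C₀(ℕ, 𝕂)) {ε : ℝ} (hε : 0 < ε) :
    ∃ i₀, ∀ i, i₀ ≤ i → ∀ j, b i ≤ j → j ≤ R i → ‖(T 𝕂)^[j] x‖ < ε := by
  have h1 := (tendsto_c0 x)
  rw [tendsto_zero_iff_norm_tendsto_zero] at h1
  have hδ : 0 < ε / (2 * Real.exp 1) := by positivity
  have h2 := (h1.eventually (gt_mem_nhds hδ))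
  obtain ⟨m, hm⟩ := eventually_atTop.1 h2
  refine ⟨m, fun i hi j hj hjR => ?_⟩
  refine lt_of_le_of_lt (norm_le_of _ (C := ε / 2) (by positivity) (fun k => ?_))
    (by linarith)
  rw [T_iter, norm_mul, norm_w]
  have h3 : m ≤ k + j := by
    have := le_b i
    lia
  calc Real.exp (p (k + j) - p k) * ‖x (k + j)‖ ≤ Real.exp 1 * (ε / (2 * Real.exp 1)) :=
        mul_le_mul (exp_small hj hjR) (hm _ h3).le (norm_nonneg _) (by positivity)
    _ = ε / 2 := by field_simp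

/-- The irregular vector. -/
noncomputable def yfun (k : ℕ) : ℝ := if k + 1 = b (idx k + 1) then Real.exp (-(idx k : ℝ)) else 0

lemma idx_tendsto : Tendsto idx atTop atTop := by
  rw [tendsto_atTop]
  intro i
  filter_upwards [eventually_ge_atTop (b i)] with k hk
  exact le_idx hk

variable (𝕂) in
/-- The irregular vector. -/
noncomputable def y : C₀(ℕ, 𝕂) := mkC (fun k => ((yfun k : ℝ) : 𝕂)) (by
  rw [tendsto_zero_iff_norm_tendsto_zero]
  have h1 : Tendsto (fun k => Real.exp (-(idx k : ℝ))) atTop (𝓝 0) :=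
    Real.tendsto_exp_neg_atTop_nhds_zero.comp
      (tendsto_natCast_atTop_atTop.comp idx_tendsto)
  refine squeeze_zero (fun k => norm_nonneg _) (fun k => ?_) h1
  rw [RCLike.norm_ofReal]
  unfold yfun
  split_ifs
  · rw [abs_of_pos (Real.exp_pos _)]
  · simp [(Real.exp_pos _).le])

lemma big_window (i j : ℕ) (h1 : 2 * (i + 1) * R i ≤ j + 1) (h2 : j + 1 + b i ≤ b (i + 1)) :
    Real.exp (i : ℝ) ≤ ‖(T 𝕂)^[j] (y 𝕂)‖ := by
  have hb := b_lt i
  set k := b (i + 1) - 1 - j with hk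
  have hkj : k + j = b (i + 1) - 1 := by lia
  have hi : idx (k + j) = i := idx_eq (by lia) (by lia)
  have hp : p k = 0 := p_flat (i := i) (by lia) (by lia)
  have hpe := p_end i
  refine le_trans ?_ (apply_le_norm _ k)
  rw [T_iter, norm_mul, norm_w]
  have hy : ‖(y 𝕂) (k + j)‖ = Real.exp (-(i : ℝ)) := by
    change ‖((yfun (k + j) : ℝ) : 𝕂)‖ = _
    rw [RCLike.norm_ofReal]
    unfold yfun
    rw [hi, if_pos (by lia), abs_of_pos (Real.exp_pos _)]
  rw [hy, hp, hkj, ← Real.exp_add]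
  refine Real.exp_le_exp.2 ?_
  linarith

end Pool.Agent.V1166.DC
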