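import Pool.Agent.V1166.DC.Defs

/-!
# The potential
-/

namespace Pool.Agent.V1166.DC

/-- The starting points of the blocks. -/
def b : ℕ → ℕ
  | 0 => 0
  | i + 1 => b i + 2 * (i + 1) * ((b i + 1) * (i + 2) ^ 2) + ((b i + 1) * (i + 2) ^ 2) ^ 2

/-- The inverse slope in the `i`-th block. -/
def R (i : ℕ) : ℕ := (b i + 1) * (i + 2) ^ 2

lemma b_succ (i : ℕ) : b (i + 1) = b i + 2 * (i + 1) * R i + R i ^ 2 := rfl

lemma R_ge (i : ℕ) : (i + 2) ^ 2 ≤ R i := by
  unfold R
  nlinarith [Nat.zero_le (b i)]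

lemma R_pos (i : ℕ) : 0 < R i := lt_of_lt_of_le (by positivity) (R_ge i)

lemma bR (i : ℕ) : b i * (i + 2) ^ 2 ≤ R i := by
  unfold R
  exact Nat.mul_le_mul_right _ (Nat.le_succ _)

lemma b_lt (i : ℕ) : b i < b (i + 1) := by
  rw [b_succ]
  have := R_pos i
  have h2 : 0 < R i ^ 2 := by positivity
  lia

lemma b_mono {i j : ℕ} (h : i ≤ j) : b i ≤ b j := by
  exact (strictMono_nat_of_lt_succ b_lt).monotone h

lemma R_mono {i j : ℕ} (h : i ≤ j) : R i ≤ R j := by
  unfold R
  exact Nat.mul_le_mul (Nat.succ_le_succ (b_mono h)) (Nat.pow_le_pow_left (by lia) 2)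

lemma le_b (i : ℕ) : i ≤ b i := (strictMono_nat_of_lt_succ b_lt).le_apply

lemma exists_idx (k : ℕ) : ∃ i, k < b (i + 1) :=
  ⟨k, lt_of_lt_of_le (Nat.lt_succ_self k) (le_b (k + 1))⟩

/-- The index of the block of `k`. -/
def idx (k : ℕ) : ℕ := Nat.find (exists_idx k)

lemma lt_idx (k : ℕ) : k < b (idx k + 1) := Nat.find_spec (exists_idx k)

lemma idx_le (k : ℕ) : b (idx k) ≤ k := by
  rcases h : idx k with _ | i
  · exact Nat.zero_le _
  · have := Nat.find_min (exists_idx k) (m := i) (by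
      have : Nat.find (exists_idx k) = i + 1 := h
      lia)
    lia

lemma idx_eq {k i : ℕ} (h1 : b i ≤ k) (h2 : k < b (i + 1)) : idx k = i := by
  have h3 := lt_idx k
  have h4 := idx_le k
  by_contra hne
  rcases lt_or_gt_of_ne hne with h | h
  · have := b_mono (show idx k + 1 ≤ i by lia)
    lia
  · have := b_mono (show i + 1 ≤ idx k by lia)
    lia

lemma idx_mono {k l : ℕ} (h : k ≤ l) : idx k ≤ idx l := by
  by_contra hne
  have := b_mono (show idx l + 1 ≤ idx k by lia)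
  have h1 := idx_le k
  have h2 := lt_idx l
  lia

lemma le_idx {k i : ℕ} (h : b i ≤ k) : i ≤ idx k := by
  by_contra hne
  have := b_mono (show idx k + 1 ≤ i by lia)
  have h2 := lt_idx k
  lia

/-- The potential. -/
noncomputable def p (k : ℕ) : ℝ :=
  max 0 (((k : ℝ) + 2 * (idx k + 1) * R (idx k) - b (idx k + 1)) / R (idx k))

lemma p_nonneg (k : ℕ) : 0 ≤ p k := le_max_left _ _

lemma p_lip (k j : ℕ) : p (k + j) ≤ p k + (j : ℝ) / R (idx (k + j)) := by
  have hR : (0 : ℝ) < R (idx (k + j)) := by exact_mod_cast R_pos _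
  have hj : (0 : ℝ) ≤ (j : ℝ) / R (idx (k + j)) := by positivity
  refine max_le (add_nonneg (p_nonneg k) hj) ?_
  rcases (idx_mono (Nat.le_add_right k j)).lt_or_eq with h | h
  · have h0 := p_nonneg k
    refine le_trans ?_ (le_add_of_nonneg_left h0)
    refine div_le_div_of_nonneg_right ?_ hR.le
    have h1 := lt_idx k
    have h2 := b_mono (show idx k + 1 ≤ idx (k + j) by lia)
    have h3 : (k : ℝ) ≤ b (idx (k + j)) := by exact_mod_cast (by lia : k ≤ b (idx (k + j)))
    have h4 : (b (idx (k + j) + 1) : ℝ) = b (idx (k + j)) +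
        2 * (idx (k + j) + 1) * R (idx (k + j)) + (R (idx (k + j)) : ℝ) ^ 2 := by
      rw [b_succ]
      push_cast
      ring
    rw [h4]
    push_cast
    nlinarith [sq_nonneg (R (idx (k + j)) : ℝ)]
  · have h1 : ((k : ℝ) + 2 * (idx k + 1) * R (idx k) - b (idx k + 1)) / R (idx k) ≤ p k :=
      le_max_right _ _
    rw [← h] at hR ⊢
    have h2 : (((k + j : ℕ) : ℝ) + 2 * (idx k + 1) * R (idx k) - b (idx k + 1)) / R (idx k) =
        ((k : ℝ) + 2 * (idx k + 1) * R (idx k) - b (idx k + 1)) / R (idx k) +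
          (j : ℝ) / R (idx k) := by
      push_cast
      ring
    rw [h2]
    linarith

lemma p_end (i : ℕ) : (2 * i + 1 : ℝ) ≤ p (b (i + 1) - 1) := by
  have h1 := b_lt i
  have hi : idx (b (i + 1) - 1) = i := idx_eq (by lia) (by lia)
  refine le_trans ?_ (le_max_right _ _)
  rw [hi]
  have hR : (0 : ℝ) < R i := by exact_mod_cast R_pos _
  have hR1 : (1 : ℝ) ≤ R i := by exact_mod_cast R_pos _
  rw [le_div_iff₀ hR]
  have : ((b (i + 1) - 1 : ℕ) : ℝ) = b (i + 1) - 1 := by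
    rw [Nat.cast_sub (by lia)]
    simp
  rw [this]
  nlinarith

lemma p_flat {i k : ℕ} (h1 : b i ≤ k) (h2 : k + 2 * (i + 1) * R i ≤ b (i + 1)) : p k = 0 := by
  have hR := R_pos i
  have hk : k < b (i + 1) := by
    have : 0 < 2 * (i + 1) * R i := by positivity
    lia
  have hi : idx k = i := idx_eq h1 hk
  refine max_eq_left ?_
  rw [hi]
  have hR' : (0 : ℝ) < R i := by exact_mod_cast R_pos _
  refine div_nonpos_of_nonpos_of_nonneg ?_ hR'.le
  have : ((k + 2 * (i + 1) * R i : ℕ) : ℝ) ≤ b (i + 1) := by exact_mod_cast h2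
  push_cast at this
  linarith

/-- Amplification in the small windows. -/
lemma exp_small {i j k : ℕ} (h1 : b i ≤ j) (h2 : j ≤ R i) :
    Real.exp (p (k + j) - p k) ≤ Real.exp 1 := by
  refine Real.exp_le_exp.2 ?_
  have h := p_lip k j
  have h3 : i ≤ idx (k + j) := le_idx (by lia)
  have h4 : (j : ℝ) ≤ R (idx (k + j)) := by exact_mod_cast h2.trans (R_mono h3)
  have hR : (0 : ℝ) < R (idx (k + j)) := by exact_mod_cast R_pos _
  have h5 : (j : ℝ) / R (idx (k + j)) ≤ 1 := (div_le_one hR).2 h4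
  linarith

lemma exp_one_step (k : ℕ) : Real.exp (p (k + 1) - p k) ≤ Real.exp 1 := by
  refine Real.exp_le_exp.2 ?_
  have h := p_lip k 1
  have hR : (1 : ℝ) ≤ R (idx (k + 1)) := by exact_mod_cast R_pos _
  have h5 : ((1 : ℕ) : ℝ) / R (idx (k + 1)) ≤ 1 := by
    rw [div_le_one (by linarith)]
    simpa using hR
  linarith

end Pool.Agent.V1166.DC
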